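import Pool.Agent.Helper88.MW.Defs

/-!
# Swarm MW, part AP1: the calculus of `Ap`
-/

set_option autoImplicit false
set_option linter.unusedSectionVars false

namespace Pool.Agent.Helper54.MW

open Polynomial Module Pool.Agent.Helper88.MW

variable {K : Type} [Field K] {E : Type} [AddCommGroup E] [Module K E] {E' : Type}
  [AddCommGroup E'] [Module K E']

theorem ap_le {C : ℕ} {X Y : Submodule K E} (h : X ≤ Y) : Ap C X Y :=
  ⟨⊥, inferInstance, by simp, by simpa using h⟩

theorem ap_mono {C C' : ℕ} {X X' Y Y' : Submodule K E} (h : Ap C X Y) (hC : C ≤ C') (hX : X' ≤ X)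
    (hY : Y ≤ Y') : Ap C' X' Y' := by
  obtain ⟨D, h1, h2, h3⟩ := h
  exact ⟨D, h1, h2.trans hC, hX.trans (h3.trans (sup_le_sup_right hY D))⟩

theorem ap_trans {C C' : ℕ} {X Y Z : Submodule K E} (h : Ap C X Y) (h' : Ap C' Y Z) :
    Ap (C + C') X Z := by
  obtain ⟨D, h1, h2, h3⟩ := h
  obtain ⟨D', h1', h2', h3'⟩ := h'
  refine ⟨D' ⊔ D, inferInstance, ?_, ?_⟩
  · exact (Submodule.finrank_add_le_finrank_add_finrank D' D).trans (by omega)
  · rw [← sup_assoc]
    exact h3.trans (sup_le_sup_right h3' D)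

theorem ap_map {C : ℕ} {X Y : Submodule K E} (h : Ap C X Y) (f : E →ₗ[K] E') :
    Ap C (X.map f) (Y.map f) := by
  obtain ⟨D, h1, h2, h3⟩ := h
  refine ⟨D.map f, inferInstance, (Submodule.finrank_map_le f D).trans h2, ?_⟩
  rw [← Submodule.map_sup]
  exact Submodule.map_mono h3

theorem ap_sup {C C' : ℕ} {X X' Y : Submodule K E} (h : Ap C X Y) (h' : Ap C' X' Y) :
    Ap (C + C') (X ⊔ X') Y := by
  obtain ⟨D, h1, h2, h3⟩ := h
  obtain ⟨D', h1', h2', h3'⟩ := h'
  refine ⟨D ⊔ D', inferInstance, ?_, ?_⟩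
  · exact (Submodule.finrank_add_le_finrank_add_finrank D D').trans (by omega)
  · refine sup_le (h3.trans (sup_le_sup_left le_sup_left Y))
      (h3'.trans (sup_le_sup_left le_sup_right Y))

/-- `f⁻¹(f(Y))` -/
theorem ap_comap_map {C : ℕ} (f : E →ₗ[K] E') [FiniteDimensional K (LinearMap.ker f)]
    (hC : finrank K (LinearMap.ker f) ≤ C) (Y : Submodule K E) :
    Ap C ((Y.map f).comap f) Y :=
  ⟨LinearMap.ker f, inferInstance, hC, (Submodule.comap_map_eq f Y).le⟩

theorem ap_finrank {C : ℕ} {X Y : Submodule K E} [FiniteDimensional K Y] (h : Ap C X Y) :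
    finrank K X ≤ finrank K Y + C := by
  obtain ⟨D, h1, h2, h3⟩ := h
  exact (Submodule.finrank_mono h3).trans
    ((Submodule.finrank_add_le_finrank_add_finrank Y D).trans (by omega))

end Pool.Agent.Helper54.MW
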