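import Pool.Agent.Helper88.MW.Defs

/-!
# Swarm MW, part PB: basic facts on polynomials
-/

set_option autoImplicit false
set_option linter.unusedSectionVars false

namespace Pool.Agent.Helper54.MW

open Polynomial Module Pool.Agent.Helper88.MW

variable {p : ℕ} [Fact p.Prime] {F : Type} [Field F] [Fintype F] [Algebra (ZMod p) F]

theorem pb_adj (j : ℕ) (l : F[X] →ₗ[ZMod p] ZMod p) (c x y : F[X]) :
    bet j l (c ^ (p ^ j) * x) y = bet j l x (c * y) := by
  rw [bet_apply, bet_apply, mul_pow]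
  congr 1
  ring

/-- coordinates -/
noncomputable def coo (d : ℕ) : Vd p F d ≃ₗ[ZMod p] (Fin d → F) :=
  ((Submodule.restrictScalarsEquiv (ZMod p) F F[X] (degreeLT F d)).trans
    (degreeLTEquiv F d)).restrictScalars (ZMod p)

theorem pb_fin (d : ℕ) : FiniteDimensional (ZMod p) (Vd p F d) :=
  Module.Finite.equiv (coo (p := p) (F := F) d).symm

theorem pb_finrank (d : ℕ) : finrank (ZMod p) (Vd p F d) = finrank (ZMod p) F * d := by
  rw [LinearEquiv.finrank_eq (coo (p := p) (F := F) d), Module.finrank_pi_fintype]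
  simp [mul_comm]

theorem mem_Vd {d : ℕ} {x : F[X]} : x ∈ Vd p F d ↔ ∀ m, d ≤ m → x.coeff m = 0 := by
  unfold Vd
  rw [Submodule.restrictScalars_mem, mem_degreeLT, degree_lt_iff_coeff_zero]

theorem pb_mono {d d' : ℕ} (h : d ≤ d') : Vd p F d ≤ Vd p F d' := by
  intro x hx
  rw [mem_Vd] at hx ⊢
  exact fun m hm => hx m (h.trans hm)

theorem pb_mul {c x : F[X]} {d m : ℕ} (hc : c.natDegree ≤ m) (hx : x ∈ Vd p F (d - m)) :
    c * x ∈ Vd p F d := by
  rw [mem_Vd] at hx ⊢
  intro k hk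
  rw [coeff_mul]
  refine Finset.sum_eq_zero fun ij hij => ?_
  rw [Finset.HasAntidiagonal.mem_antidiagonal] at hij
  by_cases h1 : ij.1 ≤ m
  · rw [hx ij.2 (by omega), mul_zero]
  · rw [coeff_eq_zero_of_natDegree_lt (by omega), zero_mul]

theorem pb_ap (d m : ℕ) : Ap (finrank (ZMod p) F * m) (Vd p F d) (Vd p F (d - m)) := by
  have : FiniteDimensional (ZMod p) (Vd p F d) := pb_fin d
  have : FiniteDimensional (ZMod p) (Vd p F (d - m)) := pb_fin (d - m)
  obtain ⟨Y, hY⟩ := Submodule.exists_isCompl (Vd p F (d - m))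
  have hle : Vd p F (d - m) ≤ Vd p F d := pb_mono (Nat.sub_le d m)
  have h1 : Vd p F (d - m) ⊔ (Y ⊓ Vd p F d) = Vd p F d := by
    rw [← sup_inf_assoc_of_le Y hle, hY.sup_eq_top, top_inf_eq]
  have h2 : Vd p F (d - m) ⊓ (Y ⊓ Vd p F d) = ⊥ := by
    rw [← inf_assoc, hY.inf_eq_bot, bot_inf_eq]
  have : FiniteDimensional (ZMod p) (Y ⊓ Vd p F d : Submodule (ZMod p) F[X]) :=
    Submodule.finiteDimensional_of_le inf_le_right
  refine ⟨Y ⊓ Vd p F d, this, ?_, h1.ge⟩
  have h3 := Submodule.finrank_sup_add_finrank_inf_eq (Vd p F (d - m)) (Y ⊓ Vd p F d)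
  rw [h1, h2, finrank_bot, add_zero, pb_finrank, pb_finrank] at h3
  have h4 : finrank (ZMod p) F * d ≤
      finrank (ZMod p) F * (d - m) + finrank (ZMod p) F * m := by
    rw [← mul_add]
    exact Nat.mul_le_mul_left _ (by omega)
  omega

theorem pb_inj {c : F[X]} (hc : c ≠ 0) : Function.Injective (mu (p := p) c) :=
  fun _ _ h => mul_left_cancel₀ hc h

end Pool.Agent.Helper54.MW
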