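import Pool.Agent.Helper54.MW.PB

/-!
# Swarm MW, part RAT: rational approximation
-/

set_option autoImplicit false
set_option linter.unusedSectionVars false

namespace Pool.Agent.Helper54.MW

open Polynomial Module Pool.Agent.Helper88.MW

/-- The embedding of the polynomials in the Laurent series in `1/T`. -/
noncomputable def emb (F : Type) [Field F] : F[X] →ₐ[F] LaurentSeries F :=
  Polynomial.aeval (HahnSeries.single (-1 : ℤ) (1 : F))

variable {p : ℕ} [Fact p.Prime] {F : Type} [Field F] [Fintype F] [CharP F p]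

theorem emb_mono (n : ℕ) (a : F) : emb F (monomial n a) = HahnSeries.single (-(n : ℤ)) a := by
  unfold emb
  rw [aeval_monomial, HahnSeries.single_pow, one_pow, HahnSeries.algebraMap_apply',
    ← PowerSeries.C_eq_algebraMap, HahnSeries.ofPowerSeries_C, HahnSeries.C_mul_eq_smul]
  ext m
  rw [HahnSeries.coeff_smul, HahnSeries.coeff_single, HahnSeries.coeff_single]
  have h2 : n • (-1 : ℤ) = -(n : ℤ) := by simp
  rw [h2]
  split_ifs <;> simp

theorem emb_coeff (f : F[X]) (m : ℤ) :
    (emb F f).coeff m = if m ≤ 0 then f.coeff (-m).toNat else 0 := by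
  induction f using Polynomial.induction_on' with
  | add f g hf hg =>
    rw [map_add, HahnSeries.coeff_add, hf, hg]
    split_ifs <;> simp
  | monomial n a =>
    rw [emb_mono, HahnSeries.coeff_single]
    rw [coeff_monomial]
    split_ifs <;> first | rfl | (exfalso; omega)

/-- orders add up -/
theorem coeff_mul_zero {A B : LaurentSeries F} {s t : ℤ} (hA : ∀ m < s, A.coeff m = 0)
    (hB : ∀ m < t, B.coeff m = 0) (m : ℤ) (hm : m < s + t) : (A * B).coeff m = 0 := by
  rw [HahnSeries.coeff_mul]
  refine Finset.sum_eq_zero fun ij hij => ?_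
  rw [Finset.mem_antidiagonal] at hij
  by_cases h1 : ij.1 < s
  · rw [hA _ h1, zero_mul]
  · rw [hB ij.2 (by omega), mul_zero]

/-- polynomial part -/
theorem exists_pol (A : LaurentSeries F) : ∃ b : F[X], ∀ m ≤ 0, (A - emb F b).coeff m = 0 := by
  obtain ⟨N, hN⟩ : ∃ N : ℕ, ∀ m : ℤ, m < -(N : ℤ) → A.coeff m = 0 := by
    refine ⟨(-A.order).toNat, fun m hm => ?_⟩
    apply HahnSeries.coeff_eq_zero_of_lt_order
    omega
  refine ⟨∑ n ∈ Finset.range (N + 1), monomial n (A.coeff (-(n : ℤ))), fun m hm => ?_⟩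
  rw [HahnSeries.coeff_sub, emb_coeff, if_pos hm, finsetSum_coeff]
  simp only [coeff_monomial]
  rw [Finset.sum_ite_eq' (Finset.range (N + 1)) (-m).toNat]
  split_ifs with h
  · rw [show (-(((-m).toNat : ℕ) : ℤ)) = m by omega, sub_self]
  · rw [Finset.mem_range] at h
    rw [hN m (by omega), sub_zero]

/-- rational approximation -/
theorem rat [Algebra (ZMod p) F] (τ : F →+ ZMod p) (hτ : τ ≠ 0) (α : LaurentSeries F) (a g : F[X])
    (hg : g ≠ 0) (hag : IsCoprime a g)
    (h : ∀ m : ℤ, m < g.natDegree → (α * emb F g - emb F a).coeff m = 0)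
    (l : F[X] →ₗ[ZMod p] ZMod p) (hl : ∀ f, l f = τ ((α * emb F f).coeff 1)) :
    Mi l g.natDegree := by
  intro x hx hx0
  obtain ⟨d, hd⟩ : ∃ d, d = g.natDegree := ⟨_, rfl⟩
  rw [← hd] at hx hx0 h
  -- the coefficients of `α x` of index `1, …, d` vanish
  have h1 : ∀ i : ℕ, i < d → (α * emb F x).coeff (i + 1) = 0 := by
    intro i hi
    have h2 : ∀ c : F, τ (c * (α * emb F x).coeff (i + 1)) = 0 := by
      intro c
      have hf : monomial i c ∈ Vd p F d := by
        rw [mem_Vd]
        intro m hm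
        rw [coeff_monomial, if_neg (by omega)]
      have h3 := hx0 _ hf
      rw [hl, map_mul, emb_mono, ← mul_assoc] at h3
      rw [← h3]
      congr 1
      have h4 := HahnSeries.coeff_mul_single_add (r := c) (x := α * emb F x)
        (a := ((i : ℤ) + 1)) (b := -(i : ℤ))
      rw [show ((i : ℤ) + 1) + -(i : ℤ) = 1 by ring] at h4
      rw [h4, mul_comm]
    by_contra hne
    apply hτ
    ext y
    have := h2 (y * ((α * emb F x).coeff (i + 1))⁻¹)
    rw [inv_mul_cancel_right₀ hne] at this
    rw [this]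
    rfl
  obtain ⟨b, hb⟩ := exists_pol (α * emb F x)
  have hb' : ∀ m : ℤ, m < d + 1 → (α * emb F x - emb F b).coeff m = 0 := by
    intro m hm
    by_cases hm0 : m ≤ 0
    · exact hb m hm0
    · have h5 := h1 (m - 1).toNat (by omega)
      rw [show (((m - 1).toNat : ℕ) : ℤ) + 1 = m by omega] at h5
      rw [HahnSeries.coeff_sub, h5, emb_coeff, if_neg hm0, sub_zero]
  rw [mem_Vd] at hx
  have hxo : ∀ m : ℤ, m < 1 - d → (emb F x).coeff m = 0 := by
    intro m hm
    rw [emb_coeff]
    split_ifs with h0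
    · exact hx _ (by omega)
    · rfl
  have hgo : ∀ m : ℤ, m < -d → (emb F g).coeff m = 0 := by
    intro m hm
    rw [emb_coeff]
    split_ifs with h0
    · exact coeff_eq_zero_of_natDegree_lt (by omega)
    · rfl
  have key : x * a - g * b = 0 := by
    have e : emb F (x * a - g * b) =
        emb F g * (α * emb F x - emb F b) - emb F x * (α * emb F g - emb F a) := by
      rw [map_sub, map_mul, map_mul]
      ring
    ext n
    have h6 : (emb F (x * a - g * b)).coeff (-(n : ℤ)) = 0 := by
      rw [e, HahnSeries.coeff_sub,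
        coeff_mul_zero hgo hb' (-(n : ℤ)) (by omega),
        coeff_mul_zero hxo h (-(n : ℤ)) (by omega), sub_zero]
    rw [emb_coeff, if_pos (by omega)] at h6
    rw [coeff_zero, ← h6]
    congr 1
    omega
  have hdvd : g ∣ x := by
    have h7 : g ∣ x * a := ⟨b, sub_eq_zero.1 key⟩
    exact hag.symm.dvd_of_dvd_mul_right h7
  by_contra hx1
  have h8 := natDegree_le_of_dvd hdvd hx1
  rw [← hd] at h8
  have h9 := hx x.natDegree h8
  exact hx1 (leadingCoeff_eq_zero.1 h9)

end Pool.Agent.Helper54.MW
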