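import Pool.Agent.Helper54.MW.PB

/-!
# Swarm MW, part STR: strings in the left kernel
-/

set_option autoImplicit false
set_option linter.unusedSectionVars false

namespace Pool.Agent.Helper54.MW

open Polynomial Module Pool.Agent.Helper88.MW

variable {p : ℕ} [Fact p.Prime] {F : Type} [Field F] [Fintype F] [Algebra (ZMod p) F]

theorem pow_surj (j : ℕ) (a : F) : ∃ b : F, b ^ (p ^ j) = a := by
  have : CharP F p := charP_of_injective_algebraMap (algebraMap (ZMod p) F).injective p
  have hinj : Function.Injective (fun b : F => b ^ (p ^ j)) := by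
    intro b c hbc
    have h1 : (b - c) ^ (p ^ j) = 0 := by
      rw [sub_pow_char_pow]
      exact sub_eq_zero.2 hbc
    exact sub_eq_zero.1 (pow_eq_zero_iff (pow_ne_zero j (Fact.out : p.Prime).ne_zero) |>.1 h1)
  exact (Finite.injective_iff_surjective.1 hinj) a

theorem str (j : ℕ) (hj : 1 ≤ j) (l : F[X] →ₗ[ZMod p] ZMod p) (d : ℕ) (hM : Mi l d) (x : F[X])
    (h : ∀ i < p ^ j, X ^ i * x ∈ Z (bet j l) (Vd p F d)) : x = 0 := by
  have hP : 0 < p ^ j := pow_pos (Fact.out : p.Prime).pos j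
  have hx : x ∈ Vd p F d := by
    have := (h 0 hP).1
    simpa using this
  have hk : ∀ i < p ^ j, ∀ y ∈ Vd p F d, l (X ^ i * x * y ^ (p ^ j)) = 0 := by
    intro i hi y hy
    have h1 := (h i hi).2
    have h2 : (aL (bet j l) (Vd p F d)) (X ^ i * x) ⟨y, hy⟩ = 0 := by
      rw [LinearMap.mem_ker.1 h1]
      rfl
    exact h2
  refine hM x hx fun f hf => ?_
  rw [mem_Vd] at hf
  conv_lhs => rw [f.as_sum_support_C_mul_X_pow]
  rw [Finset.mul_sum, map_sum]
  refine Finset.sum_eq_zero fun n hn => ?_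
  have hnd : n < d := by
    by_contra hc
    exact (mem_support_iff.1 hn) (hf n (by omega))
  obtain ⟨b, hb⟩ := pow_surj (p := p) j (f.coeff n)
  have hy : C b * X ^ (n / p ^ j) ∈ Vd p F d := by
    rw [mem_Vd]
    intro m hm
    rw [coeff_C_mul, coeff_X_pow, if_neg, mul_zero]
    have := Nat.div_le_self n (p ^ j)
    omega
  have h3 := hk (n % p ^ j) (Nat.mod_lt _ hP) _ hy
  rw [← h3]
  congr 1
  rw [mul_pow, ← C_pow, hb, ← pow_mul]
  have e : (X : F[X]) ^ n = X ^ (n % p ^ j) * X ^ (n / p ^ j * p ^ j) := by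
    rw [← pow_add]
    congr 1
    rw [mul_comm]
    exact (Nat.mod_add_div n (p ^ j)).symm
  rw [e]
  ring

end Pool.Agent.Helper54.MW
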